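import Pool.Agent.W292.NR.Stm
set_option autoImplicit false

/-!
NR-STEP: the step along the edge of a real variable.
-/

namespace Pool.Agent.W540.NR

open Finset Pool.Agent.W292.NR

theorem sgn_sq (b : Bool) : sgn b = 1 ∨ sgn b = -1 := by
  cases b <;> simp [sgn]

theorem psum_congr {v v' : ℕ → Bool} {a : ℕ} : ∀ i : ℕ, (∀ j < i, v' (a + j) = v (a + j)) →
    psum v' a i = psum v a i := by
  intro i
  induction i with
  | zero => intro _; rfl
  | succ i ih =>
    intro h
    have h1 := ih (fun j hj => h j (by omega))
    have h2 := h i (by omega)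
    simp only [psum, h1, h2]

theorem flip_ne (v : ℕ → Bool) {t u : ℕ} (h : u ≠ t) : flipBit v t u = v u := by
  simp [flipBit, h]

theorem flip_eq (v : ℕ → Bool) (t : ℕ) : flipBit v t t = !v t := by
  simp [flipBit]

/-- Difference of the partial sums above the flipped bit. -/
theorem psum_diff (v : ℕ → Bool) {a t : ℕ} (hat : a ≤ t) : ∀ d : ℕ,
    psum (flipBit v t) a (t - a + 1 + d) - psum v a (t - a + 1 + d) =
      (3 ^ (t - a) - 2 * psum v a (t - a)) *
        ((∏ w ∈ Ico t (t + 1 + d), sgn (v w) : ℤ) : ℚ) := by
  intro d
  have hlow : psum (flipBit v t) a (t - a) = psum v a (t - a) :=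
    psum_congr _ (fun j hj => flip_ne v (by omega))
  have hta : a + (t - a) = t := by omega
  induction d with
  | zero =>
    have h1 : ∏ w ∈ Ico t (t + 1 + 0), sgn (v w) = sgn (v t) := by
      rw [add_zero, Nat.Ico_succ_singleton, prod_singleton]
    rw [h1]
    simp only [psum, hlow, hta, flip_eq]
    cases v t <;> simp [sgn] <;> ring
  | succ d ih =>
    have h1 : ∏ w ∈ Ico t (t + 1 + (d + 1)), sgn (v w) =
        (∏ w ∈ Ico t (t + 1 + d), sgn (v w)) * sgn (v (t + 1 + d)) := by
      rw [show t + 1 + (d + 1) = (t + 1 + d) + 1 by ring, prod_Ico_succ_top (by omega)]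
    have h2 : a + (t - a + 1 + d) = t + 1 + d := by omega
    rw [h1, Int.cast_mul]
    rw [show t - a + 1 + (d + 1) = (t - a + 1 + d) + 1 by ring]
    simp only [psum, h2]
    rw [flip_ne v (show t + 1 + d ≠ t by omega)]
    rw [← mul_assoc, ← ih]
    cases v (t + 1 + d) <;> simp [sgn]

theorem vert_step (k : ℕ) (st ln : ℕ → ℕ) (hC : Chains k st ln) (v : ℕ → Bool) (t : Fin k)
    (j : Fin k × Bool) :
    vert k st (flipBit v t) j = vert k st v j + wid st v t * dirR k st v t j := by
  obtain ⟨u, b⟩ := j
  cases b with
  | true => simp [vert, dirR]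
  | false =>
    have hle := hC.le t t.2
    have hlt := hC.lt t t.2
    have hleu := hC.le u u.2
    have hltu := hC.lt u u.2
    by_cases hst : st u = st t
    · rcases lt_trichotomy (u : ℕ) (t : ℕ) with h | h | h
      · -- below the cell
        have h1 : flipBit v t u = v u := flip_ne v (by omega)
        have h2 : psum (flipBit v t) (st u) (u - st u) = psum v (st u) (u - st u) :=
          psum_congr _ (fun j hj => flip_ne v (by omega))
        have h3 : ¬ (t ≤ u) := by
          rw [Fin.le_def]
          omega
        simp [vert, dirR, h1, h2, h3]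
      · have hut : u = t := Fin.ext h
        subst hut
        have h2 : psum (flipBit v u) (st u) (u - st u) = psum v (st u) (u - st u) :=
          psum_congr _ (fun j hj => flip_ne v (by omega))
        simp only [vert, dirR, flip_eq, h2, wid]
        cases v u <;> simp [sgn]
      · have h1 : flipBit v t u = v u := flip_ne v (by omega)
        have h3 : t ≤ u := by
          rw [Fin.le_def]
          omega
        have h4 : u ≠ t := fun h' => by
          rw [h'] at h
          exact lt_irrefl _ h
        obtain ⟨d, hd⟩ : ∃ d, (u : ℕ) = t + 1 + d := ⟨u - t - 1, by omega⟩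
        have h5 := psum_diff v hle d
        have h6 : (u : ℕ) - st u = t - st t + 1 + d := by omega
        have h7 : psum (flipBit v t) (st t) (u - st t) = psum v (st t) (u - st t) +
            wid st v t * ((∏ w ∈ Ico (t : ℕ) u, sgn (v w) : ℤ) : ℚ) := by
          rw [← hst, h6, hst, hd, wid]
          linarith
        simp only [vert, dirR, h1, h7, h3, h4, hst, true_and, if_true, if_false]
        cases v u
        · simp
        · simp only [if_true]
          ring
    · have hno : ∀ j, j < (u : ℕ) - st u → st u + j ≠ t := by
        intro j hj h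
        apply hst
        exact ((hC.same u u.2 t (by omega) (by omega)).1).symm
      have hut : (u : ℕ) ≠ t := by
        intro h
        exact hst (by rw [h])
      have h1 : flipBit v t u = v u := flip_ne v hut
      have h2 : psum (flipBit v t) (st u) (u - st u) = psum v (st u) (u - st u) :=
        psum_congr _ (fun j hj => flip_ne v (hno j hj))
      simp [vert, dirR, h1, h2, hst]

/-- Sum of the coordinates of a chain. -/
theorem sum_vert (k : ℕ) (st ln : ℕ → ℕ) (hC : Chains k st ln) (v : ℕ → Bool) {t : ℕ} (ht : t < k) :
    ∀ i : ℕ, i ≤ t - st t → ∑ u ∈ Ico (st t) (st t + i),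
      (if v u then (3 : ℚ) ^ (u - st u) - 2 * psum v (st u) (u - st u) else 0) =
        psum v (st t) i := by
  intro i
  induction i with
  | zero => intro _; simp [psum]
  | succ i ih =>
    intro hi
    have hlt := hC.lt t ht
    have h1 : st (st t + i) = st t := (hC.same t ht (st t + i) (by omega) (by omega)).1
    rw [← add_assoc, sum_Ico_succ_top (by omega), ih (by omega), h1]
    have h2 : st t + i - st t = i := by omega
    rw [h2]
    simp only [psum]
    cases v (st t + i)
    · simp
    · simp only [if_true]
      ring

theorem step : S_STEP := by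
  intro k st ln hC v t
  refine ⟨vert_step k st ln hC v t, ?_⟩
  intro s hs hF
  have hle := hC.le t t.2
  cases hv : v t with
  | true =>
    have h1 := hF (Sum.inr (t, false))
    have h2 : vert k st v (t, false) = wid st v t := by simp [vert, hv, wid]
    have h3 : dirR k st v t (t, false) = -1 := by simp [dirR, hv, sgn]
    simp only [LP.slack, h2, h3] at h1
    linarith
  | false =>
    have h1 := hF (Sum.inl (t, false))
    obtain ⟨F, hFd⟩ : ∃ F : ℕ → ℚ, F = fun u => (if u = (t : ℕ) then s else 0) +
      (if st t ≤ u ∧ u < (t : ℕ) then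
        2 * (if v u then (3 : ℚ) ^ (u - st u) - 2 * psum v (st u) (u - st u) else 0) else 0) :=
      ⟨_, rfl⟩
    have hsum : ∑ j, (((chainLP k st).A (t, false) j : ℤ) : ℚ) *
        (vert k st v j + s * dirR k st v t j) = ∑ u : Fin k, F u := by
      rw [Fintype.sum_prod_type]
      refine sum_congr rfl fun u _ => ?_
      rw [Fintype.sum_bool]
      have e1 : vert k st v (u, true) + s * dirR k st v t (u, true) = 0 := by
        simp [vert, dirR]
      rw [e1, mul_zero, zero_add, hFd]
      rcases lt_trichotomy (u : ℕ) (t : ℕ) with h | h | h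
      · have h3 : ¬ (t ≤ u) := by
          rw [Fin.le_def]
          omega
        have h4 : u ≠ t := fun h' => by
          rw [h'] at h
          exact lt_irrefl _ h
        have h5 : (u : ℕ) ≠ t := by omega
        have h6 : u < t := h
        by_cases h7 : st t ≤ u
        · simp [chainLP, vert, dirR, h3, h4, h5, h6, h7]
        · simp [chainLP, h4, h5, h6, h7]
      · have hut : u = t := Fin.ext h
        subst hut
        simp [chainLP, vert, dirR, hv, sgn]
      · have h4 : u ≠ t := fun h' => by
          rw [h'] at h
          exact lt_irrefl _ h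
        have h6 : ¬ (u < t) := by
          rw [Fin.lt_def]
          omega
        have h5 : (u : ℕ) ≠ t := by omega
        simp [chainLP, h4, h5, h6]
    have hsum2 : ∑ u : Fin k, F u = s + 2 * psum v (st t) (t - st t) := by
      rw [← Finset.sum_range (f := F), hFd, sum_add_distrib, sum_ite_eq', if_pos (mem_range.2 t.2),
        ← sum_filter]
      have h3 : (range k).filter (fun u => st t ≤ u ∧ u < (t : ℕ)) = Ico (st t) (t : ℕ) := by
        ext u
        simp only [mem_filter, mem_range, mem_Ico]
        have := t.2
        omega
      rw [h3, ← mul_sum]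
      have h4 := sum_vert k st ln hC v t.2 (t - st t) le_rfl
      rw [show st (t : ℕ) + ((t : ℕ) - st t) = t by omega] at h4
      rw [h4]
    have hb : ((chainLP k st).b (t, false) : ℚ) = 3 ^ ((t : ℕ) - st t) := by
      simp [chainLP]
    simp only [LP.slack] at h1
    rw [hsum, hsum2, hb] at h1
    rw [wid] at hs
    linarith

end Pool.Agent.W540.NR
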